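import Pool.Agent.K.MP_373cf5_nt.C1

namespace Pool.Agent.Results.MP_373cf5_nt.LargePrime

open Classical in
/-- Many partition numbers have a prime factor larger than a power of `N`. -/
theorem result (δ : ℝ) (hδ : 0 < δ) :
    ∃ c : ℝ, 0 < c ∧ ∃ N₀ : ℕ, ∀ N : ℕ, N₀ ≤ N → ∀ y : ℝ, (N : ℝ) ^ δ ≤ y →
      y ≤ c * (N : ℝ) ^ (1 / 4 : ℝ) * √(Real.log N) →
      c * (N : ℝ) / y ^ 2 ≤ (((Finset.Icc 1 N).filter
        fun n => ∃ l : ℕ, l.Prime ∧ l ∣ Fintype.card (Nat.Partition n) ∧ y < l).card : ℝ) := by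
  obtain ⟨c, hc, h⟩ := PNF.density δ hδ
  obtain ⟨N₀, hN₀⟩ := Filter.eventually_atTop.mp h
  exact ⟨c, hc, N₀, hN₀⟩

end Pool.Agent.Results.MP_373cf5_nt.LargePrime
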