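import Pool.Agent.K.MP_373cf5_nt.C2

namespace Pool.Agent.Results.MP_373cf5_nt.ManyPrimes

/-- The number of distinct primes dividing a block of partition numbers. -/
theorem result : ∃ c : ℝ, 0 < c ∧ ∃ n₀ : ℕ, ∀ n : ℕ, n₀ ≤ n →
    c * (n : ℝ) ^ (1 / 4 : ℝ) / √(Real.log n) ≤
      ((∏ k ∈ Finset.Icc (n / 100) n, Fintype.card (Nat.Partition k)).primeFactors.card : ℝ) := by
  obtain ⟨c, hc, h⟩ := PNF.omega_bound
  obtain ⟨n₀, hn₀⟩ := Filter.eventually_atTop.mp h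
  exact ⟨c, hc, n₀, hn₀⟩

end Pool.Agent.Results.MP_373cf5_nt.ManyPrimes
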